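import Pool.Agent.H482R3.EA.Stm

set_option autoImplicit false

/-! Project EA, task SEM1 (helper616). -/

namespace Pool.Agent.H616R2.EA.SEM1

open Pool.Agent.H482R3.EA

lemma wpow (hV : S_EV) {S G : Type} [DecidableEq S] [Group G] (f : S → G) (s : S) (a : ℤ) :
    ∃ u : W S, ev f u = f s ^ a ∧ expo s u = a ∧ ∀ t, t ≠ s → expo t u = 0 := by
  obtain ⟨n, rfl | rfl⟩ := a.eq_nat_or_neg
  · refine ⟨List.replicate n (s, true), ?_, ?_, ?_⟩
    · rw [((hV S G _ f).2.2 s n).1, zpow_natCast]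
    · simp [expo, List.count_replicate]
    · intro t ht
      simp [expo, List.count_replicate, ht.symm]
  · refine ⟨List.replicate n (s, false), ?_, ?_, ?_⟩
    · rw [((hV S G _ f).2.2 s n).2, zpow_neg, zpow_natCast, inv_pow]
    · simp [expo, List.count_replicate]
    · intro t ht
      simp [expo, List.count_replicate, ht.symm]

lemma triv1 (hE : S_EX) (hV : S_EV) {S : Type} [DecidableEq S] (c : S → S → ℕ) (y : W S) (v : S)
    (a : ℤ) (hy : ev (gen c) y = gen c v ^ a) : Triv c (y ++ inv (fil v y)) := by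
  obtain ⟨u, hu, hu1, hu2⟩ := wpow hV (gen c) v a
  obtain ⟨e1, e2, e3, e4, e5⟩ := hE S _ c v
  have h1 : expo v y = a := by rw [e1 y u (hy.trans hu.symm), hu1]
  unfold Triv
  rw [(hV S _ _ (gen c)).1, (hV S _ _ (gen c)).2.1, e2, h1, hy, mul_inv_cancel]

lemma triv2 (hE : S_EX) (hV : S_EV) {S : Type} [DecidableEq S] (c : S → S → ℕ) (y : W S)
    (v v' : S) (hv : v' ≠ v) (a b : ℤ) (hy : ev (gen c) y = gen c v ^ a * gen c v' ^ b) :
    Triv c (inv (fil v y) ++ y ++ inv (fil v' y)) := by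
  obtain ⟨u, hu, hu1, hu2⟩ := wpow hV (gen c) v a
  obtain ⟨u', hu', hu1', hu2'⟩ := wpow hV (gen c) v' b
  obtain ⟨e1, e2, e3, e4, e5⟩ := hE S _ c v
  obtain ⟨f1, f2, f3, f4, f5⟩ := hE S _ c v'
  have h0 : ev (gen c) y = ev (gen c) (u ++ u') := by
    rw [(hV S _ _ (gen c)).1, hu, hu', hy]
  have h1 : expo v y = a := by
    rw [e1 y _ h0, e4, hu1, hu2' v hv.symm, add_zero]
  have h2 : expo v' y = b := by
    rw [f1 y _ h0, f4, hu2 v' hv, hu1', zero_add]
  unfold Triv
  rw [(hV S _ _ (gen c)).1, (hV S _ _ (gen c)).1, (hV S _ _ (gen c)).2.1,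
    (hV S _ _ (gen c)).2.1, e2, f2, h1, h2, hy]
  group

lemma map_ev {S G H : Type} [Group G] [Group H] (φ : G →* H) (f : S → G) (u : W S) :
    φ (ev f u) = ev (fun s => φ (f s)) u := by
  unfold ev
  rw [map_list_prod, List.map_map]
  congr 1
  apply List.map_congr_left
  intro a _
  simp only [Function.comp]
  split_ifs
  · rfl
  · exact map_inv φ _

theorem t_SEM1 (hD : S_DIC) (hM : S_DICM) (hS : S_XS) (hE : S_EX) (hV : S_EV) (hG : S_EXG) :
    S_SEM1 := by
  intro V Wt dV dW c hX h A s a ω hs hA hω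
  rcases a with ⟨g, v, b, n⟩ | ⟨g, y⟩ | ⟨g, v, w, y⟩
  · -- point syllables
    refine ⟨trivial, ?_⟩
    obtain ⟨hn, hN⟩ := hA
    rw [(hD V Wt dV dW c h s g v hs).1] at hN
    rw [← hω] at hN
    have key := A.st_pt ω (Sum.inl (gEl c g) : LnEA c) ((gEl c g, v) : PEA c)
      (if b then (n : ℤ) else -(n : ℤ)) (by change (gEl c g) = gEl c g; rfl)
      (by split_ifs <;> omega) hN
    have e : (lyO c (.inl (g, v, b, n) : Syl V Wt)) = ⟨(Sum.inl (gEl c g) : LnEA c),
        ((gen (cV c) v) ^ (if b then (n : ℤ) else -(n : ℤ)) : EA (cV c))⟩ := by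
      unfold lyO
      cases b
      · simp
      · simp
    rw [e]
    exact key
  · -- block syllables
    refine ⟨trivial, ?_⟩
    obtain ⟨hI, hc⟩ := hA
    rcases hc with ⟨hc1, hc2⟩ | ⟨v, hc1, hc2, hc3⟩
    · obtain ⟨⟨g0, v0⟩, hp0⟩ := h.Λ0 (Sum.inl (gEl c g) : LnEA c)
      rw [(hD V Wt dV dW c h s g v0 hs).2.1] at hI
      rw [← hω] at hI
      have key := A.st_ln ω (Sum.inl (gEl c g) : LnEA c) (ev (gen (cV c)) y : EA (cV c)) hI
      refine key ?_ ?_
      · rintro ⟨g', v'⟩ hq hN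
        change g' = gEl c g at hq
        subst hq
        apply hc1 v'
        rw [(hD V Wt dV dW c h s g v' hs).1, ← hω]
        exact hN
      · rintro ⟨g', v'⟩ a hr hy
        change ev (gen (cV c)) y = gen (cV c) v' ^ a at hy
        exact hc2 v' (triv1 hE hV _ y v' _ hy)
    · rw [(hD V Wt dV dW c h s g v hs).2.1] at hI
      rw [(hD V Wt dV dW c h s g v hs).1] at hc1
      rw [← hω] at hI hc1
      have key := A.st_ln' ω (Sum.inl (gEl c g) : LnEA c) (ev (gen (cV c)) y : EA (cV c))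
        ((gEl c g, v) : PEA c) hI (by change (gEl c g) = gEl c g; rfl) hc1
      refine key ?_
      rintro ⟨g', v'⟩ a b hr hy
      change g' = gEl c g at hr
      change ev (gen (cV c)) y = gen (cV c) v ^ a * gen (cV c) v' ^ b at hy
      by_cases hv : v' = v
      · subst hv
        rw [← zpow_add] at hy
        exact hc2 (triv1 hE hV _ y v' _ hy)
      · exact hc3 v' hv (triv2 hE hV _ y v v' hv a b hy)
  · obtain ⟨hk, hI, hc⟩ := hA
    refine ⟨hk, ?_⟩
    have hk2 : 0 < c (.inl v) (.inr w) := Nat.pos_of_ne_zero hk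
    -- the line
    set l : LnEA c := Sum.inr ⟨(⟨(v, w), hk⟩ : LIdx c), QuotientGroup.mk (gEl c g)⟩ with hl
    set d : ℤ := exg c w (((QuotientGroup.mk (gEl c g) :
              EA (cW c) ⧸ Subgroup.zpowers (gen (cW c) w)).out)⁻¹ * gEl c g) with hd
    have e : lyO c (.inr (.inr (g, v, w, y)) : Syl V Wt) = ⟨l,
          (ev (fun r : ℕ => xx (c (.inl v) (.inr w)) (((r % c (.inl v) (.inr w) : ℕ) : ℤ) + d)) y :
            FreeGroup (Fin (c (.inl v) (.inr w))))⟩ := by
      unfold lyO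
      exact dif_pos hk
    have e2 : stO c h (some (.inr (.inr (g, v, w, y)) : Syl V Wt)) = .ln l := by
      unfold stO
      exact dif_pos hk
    rw [e, e2]
    obtain ⟨σ, hσ⟩ := hS (c (.inl v) (.inr w)) d hk2
    have hy : (ev (fun r : ℕ => xx (c (.inl v) (.inr w))
        (((r % c (.inl v) (.inr w) : ℕ) : ℤ) + d)) y :
            FreeGroup (Fin (c (.inl v) (.inr w)))) = σ (evF (c (.inl v) (.inr w)) y) := by
      unfold evF
      rw [show σ (ev (fun r : ℕ => xx (c (.inl v) (.inr w)) ((r % c (.inl v) (.inr w) : ℕ) : ℤ)) y)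
        = σ.toMonoidHom (ev (fun r : ℕ => xx (c (.inl v) (.inr w))
          ((r % c (.inl v) (.inr w) : ℕ) : ℤ)) y) from rfl, map_ev]
      congr 1
      funext r
      exact (hσ _).symm
    rw [hy]
    -- points of the line
    have hpt : ∀ i : ℤ, xEA c l ((gEl c g * gen (cW c) w ^ i, v) : PEA c) =
        xx (c (.inl v) (.inr w)) (d + i) := by
      intro i
      change xx (c (.inl v) (.inr w)) (exg c w (((QuotientGroup.mk (gEl c g) :
              EA (cW c) ⧸ Subgroup.zpowers (gen (cW c) w)).out)⁻¹ *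
              (gEl c g * gen (cW c) w ^ i))) = _
      obtain ⟨g1, g2, g3⟩ := hG V Wt dW c w
      rw [← mul_assoc, g2, g3, if_pos rfl]
    have hpt2 : ∀ r : PEA c, IEA c r l → ∃ i : ℤ, xEA c l r = xx (c (.inl v) (.inr w)) (i + d) := by
      rintro ⟨g', v'⟩ ⟨hv', hg'⟩
      change v' = v at hv'
      subst hv'
      change (QuotientGroup.mk g' : EA (cW c) ⧸ Subgroup.zpowers (gen (cW c) w)) =
        QuotientGroup.mk (gEl c g) at hg'
      rw [eq_comm, QuotientGroup.eq] at hg'
      obtain ⟨i, hi⟩ := hg'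
      have hi' : g' = gEl c g * gen (cW c) w ^ i := by
        have : gen (cW c) w ^ i = (gEl c g)⁻¹ * g' := hi
        rw [this]
        group
      refine ⟨i, ?_⟩
      rw [hi', hpt i, add_comm]
    have hone : ∀ i a : ℤ, σ (evF (c (.inl v) (.inr w)) y) =
        (xx (c (.inl v) (.inr w)) (i + d)) ^ a →
        evF (c (.inl v) (.inr w)) y = (xx (c (.inl v) (.inr w)) i) ^ a := by
      intro i a h3
      rw [← hσ, ← map_zpow] at h3
      exact σ.injective h3
    have htwo : ∀ j i a b : ℤ, σ (evF (c (.inl v) (.inr w)) y) =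
        (xx (c (.inl v) (.inr w)) (j + d)) ^ a * (xx (c (.inl v) (.inr w)) (i + d)) ^ b →
        evF (c (.inl v) (.inr w)) y =
          (xx (c (.inl v) (.inr w)) j) ^ a * (xx (c (.inl v) (.inr w)) i) ^ b := by
      intro j i a b h3
      rw [← hσ, ← hσ, ← map_zpow, ← map_zpow, ← map_mul] at h3
      exact σ.injective h3
    obtain ⟨hM1, hM2⟩ := hM V Wt dV dW c h s g v w hk hs hI
    rw [(hD V Wt dV dW c h s g v hs).2.2 w hk, ← hω] at hI
    rcases hc with ⟨hc1, hc2⟩ | ⟨hc1, hc2⟩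
    · have key := A.st_ln ω l (σ (evF (c (.inl v) (.inr w)) y)) hI
      refine key ?_ ?_
      · intro q hq hN
        apply hc1
        rw [hM1, ← hω]
        exact ⟨q, hq, hN⟩
      · intro r a hr hyy
        obtain ⟨i, hi⟩ := hpt2 r hr
        change σ (evF (c (.inl v) (.inr w)) y) = xEA c l r ^ a at hyy
        have h3 : σ (evF (c (.inl v) (.inr w)) y) = (xx (c (.inl v) (.inr w)) (i + d)) ^ a :=
          hyy.trans (congrArg (fun z : LEA c l => z ^ a) hi)
        exact hc2 i a (hone i a h3)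
    · have hN := hM2 hc1
      rw [← hω] at hN
      have key := A.st_ln' ω l (σ (evF (c (.inl v) (.inr w)) y))
        ((gEl c g * gen (cW c) w ^ expo w (inv g ++ gOf s), v) : PEA c) hI ⟨rfl, by
          change (QuotientGroup.mk _ : EA (cW c) ⧸ Subgroup.zpowers (gen (cW c) w)) =
            QuotientGroup.mk (gEl c g)
          rw [eq_comm, QuotientGroup.eq, inv_mul_cancel_left]
          exact ⟨_, rfl⟩⟩ hN
      refine key ?_
      intro r a b hr hyy
      obtain ⟨i, hi⟩ := hpt2 r hr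
      have h4 := hpt (expo w (inv g ++ gOf s))
      have h3 : σ (evF (c (.inl v) (.inr w)) y) =
          (xx (c (.inl v) (.inr w)) (d + expo w (inv g ++ gOf s))) ^ a *
            (xx (c (.inl v) (.inr w)) (i + d)) ^ b :=
        hyy.trans (congrArg₂ (fun z z' : LEA c l => z ^ a * z' ^ b) h4 hi)
      rw [add_comm d] at h3
      exact hc2 i a b (htwo _ i a b h3)

end Pool.Agent.H616R2.EA.SEM1
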